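import Pool.Agent.Y118.UL.Irr

/-!
# From relations between all coordinates to relations between the free coordinates (core)

The statements are those of the parts DEP and BR of project AF, with the definitions written out.
-/

set_option autoImplicit false
set_option linter.unusedSectionVars false

open PowerSeries Module Filter AlgebraicIndependent

namespace Pool.Agent.Y977.AF

open Pool.Agent.Y118.UL

/-- evaluation of the coefficients at the complex number `x` -/
noncomputable def spc {σ ε : Type} (e : ε → σ) (x : ℂ) (y : σ → ℂ) : MvPolynomial ε (Polynomial ℚ) →+* ℂ :=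
  MvPolynomial.eval₂Hom (Polynomial.aeval x : Polynomial ℚ →ₐ[ℚ] ℂ).toRingHom (fun i => y (e i))

/-- the specialisation at `x` of the variety of functional relations -/
def Vc {r : ℕ} (h : Fin r → ℚ⟦X⟧) (x : ℂ) : Set (Fin r → ℂ) :=
  {y | ∀ R : MvPolynomial (Fin r) (Polynomial ℚ), MvPolynomial.aeval h R = 0 →
    MvPolynomial.eval₂ (Polynomial.aeval x : Polynomial ℚ →ₐ[ℚ] ℂ).toRingHom y R = 0}

/-- (DEP) -/
def C_dep : Prop := ∀ (σ ε υ : Type) [Fintype σ] [Fintype υ] (e : ε → σ)
  (R : σ → Polynomial (MvPolynomial ε (Polynomial ℚ))), (∀ s, R s ≠ 0) → ∀ (k : ℕ) (xx : ℕ → Fin k → ℂ),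
  (∀ j, IsAlgebraic (Pool.Agent.Y118.UL.U ℚ) (mk ℂ fun n => xx n j)) →
  (∀ c : Polynomial ℚ, c ≠ 0 → ∀ j, ∀ᶠ n in (hyperfilter ℕ : Filter ℕ), Polynomial.aeval (xx n j) c ≠ 0) →
  ∀ (w : ℕ → υ → ℂ) (Y : ℕ → Set (Fin k × σ → ℂ)), (∀ n, Irr (Y n)) → ∀ z : ℕ → Fin k × σ → ℂ, (∀ n, z n ∈ Y n) →
  (∀ n, ∀ y ∈ Y n, ∀ j s, Polynomial.eval₂ (spc e (xx n j) fun s => y (j, s)) (y (j, s)) (R s) = 0) →
  ∀ (D d : ℕ) (K : ℕ → IntermediateField ℚ ℂ), (∀ n, FiniteDimensional ℚ (K n)) → (∀ n, finrank ℚ (K n) ≤ D) →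
  ∀ P : ∀ n, MvPolynomial (υ ⊕ Fin k × σ) (K n), (∀ n, (P n).totalDegree ≤ d) →
  (∀ n, MvPolynomial.aeval (Sum.elim (w n) (z n)) (P n) = 0) →
  ∀ y0 : ℕ → Fin k × σ → ℂ, (∀ n, y0 n ∈ Y n) → (∀ n, MvPolynomial.aeval (Sum.elim (w n) (y0 n)) (P n) ≠ 0) →
  ∃ a : Fin k × ε, mk ℂ (fun n => z n (a.1, e a.2)) ∈
    MM.closure (Set.range (fun j : υ => mk ℂ fun n => w n j) ∪
      ((fun b : Fin k × ε => mk ℂ (fun n => z n (b.1, e b.2))) '' {a}ᶜ))

/-- (BR) -/
def C_br : Prop := ∀ (r : ℕ) (h : Fin r → ℚ⟦X⟧) (I : Finset (Fin r)),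
  (∀ s ∉ I, ¬ AlgebraicIndependent (Polynomial ℚ) (fun o : Option I => o.elim (h s) fun i => h i)) →
  ∀ k m d δ D : ℕ,
  ∃ (δ' : ℕ) (c : Polynomial ℚ), c ≠ 0 ∧ ∀ (x : Fin k → ℂ) (y₀ : Fin k × Option (Fin r) → ℂ)
  (Y : Set (Fin k × Option (Fin r) → ℂ)) (K : IntermediateField ℚ ℂ) (w : Fin D → ℂ)
  (P : MvPolynomial (Fin D ⊕ Fin k × Option (Fin r)) K),
  (∀ j, ∃ K₁ : IntermediateField ℚ ℂ, FiniteDimensional ℚ K₁ ∧ finrank ℚ K₁ ≤ m ∧ x j ∈ K₁) →
  (∀ j, Polynomial.aeval (x j) c ≠ 0) → Irr Y → y₀ ∈ Y → (∀ y ∈ Y, ∀ j, (fun i => y (j, some i)) ∈ Vc h (x j)) →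
  FiniteDimensional ℚ K → finrank ℚ K ≤ d → P.totalDegree ≤ δ → MvPolynomial.aeval (Sum.elim w y₀) P = 0 →
  (∃ y ∈ Y, MvPolynomial.aeval (Sum.elim w y) P ≠ 0) →
  ∃ Q : MvPolynomial (Fin D ⊕ Fin k × Option I) ℚ, Q.totalDegree ≤ δ' ∧
    MvPolynomial.aeval (Sum.elim w fun p : Fin k × Option I => y₀ (p.1, p.2.map Subtype.val)) Q = 0 ∧
    (MvPolynomial.aeval (Sum.elim (fun j => MvPolynomial.C (w j)) MvPolynomial.X) Q :
      MvPolynomial (Fin k × Option I) ℂ) ≠ 0

lemma eval₂_option {κ : Type} {A : Type} [CommRing A] (φ : Polynomial ℚ →+* A) (z : Option κ → A)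
    (p : MvPolynomial (Option κ) (Polynomial ℚ)) :
    Polynomial.eval₂ (MvPolynomial.eval₂Hom φ fun i => z (some i)) (z none) (MvPolynomial.optionEquivLeft _ _ p) =
      MvPolynomial.eval₂ φ z p := by
  have h1 : (Polynomial.eval₂RingHom (MvPolynomial.eval₂Hom φ fun i => z (some i)) (z none)).comp
      ((MvPolynomial.optionEquivLeft (Polynomial ℚ) κ : MvPolynomial (Option κ) (Polynomial ℚ) →+*
        Polynomial (MvPolynomial κ (Polynomial ℚ)))) = MvPolynomial.eval₂Hom φ z := by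
    refine MvPolynomial.ringHom_ext (fun c => ?_) fun o => ?_
    · simp [MvPolynomial.optionEquivLeft_C]
    · rcases o with _ | i
      · simp [MvPolynomial.optionEquivLeft_X_none]
      · simp [MvPolynomial.optionEquivLeft_X_some]
  exact DFunLike.congr_fun h1 p

/-- the relations of the dependent coordinates -/
theorem exists_Rc {r : ℕ} {h : Fin r → ℚ⟦X⟧} {I : Finset (Fin r)}
    (hI : ∀ s ∉ I, ¬ AlgebraicIndependent (Polynomial ℚ) (fun o : Option I => o.elim (h s) fun i => h i)) :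
    ∃ R : Option (Fin r) → Polynomial (MvPolynomial (Option I) (Polynomial ℚ)), (∀ s, R s ≠ 0) ∧
      ∀ (x : ℂ) (y : Option (Fin r) → ℂ), (fun i => y (some i)) ∈ Vc h x → ∀ s,
        Polynomial.eval₂ (spc (Option.map Subtype.val) x y) (y s) (R s) = 0 := by
  classical
  have key : ∀ s : Option (Fin r), ∃ R : Polynomial (MvPolynomial (Option I) (Polynomial ℚ)), R ≠ 0 ∧
      ∀ (x : ℂ) (y : Option (Fin r) → ℂ), (fun i => y (some i)) ∈ Vc h x →
        Polynomial.eval₂ (spc (Option.map Subtype.val) x y) (y s) R = 0 := by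
    have triv : ∀ o : Option I, ∃ R : Polynomial (MvPolynomial (Option I) (Polynomial ℚ)), R ≠ 0 ∧
        ∀ (x : ℂ) (y : Option (Fin r) → ℂ), (fun i => y (some i)) ∈ Vc h x →
          Polynomial.eval₂ (spc (Option.map Subtype.val) x y) (y (o.map Subtype.val)) R = 0 := by
      intro o
      refine ⟨Polynomial.X - Polynomial.C (MvPolynomial.X o), Polynomial.X_sub_C_ne_zero _, fun x y _ => ?_⟩
      rw [Polynomial.eval₂_sub, Polynomial.eval₂_X, Polynomial.eval₂_C]
      unfold spc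
      rw [MvPolynomial.coe_eval₂Hom, MvPolynomial.eval₂_X, sub_self]
    intro s
    rcases s with _ | s
    · exact triv none
    · by_cases hs : s ∈ I
      · exact triv (some ⟨s, hs⟩)
      · have h1 := hI s hs
        rw [algebraicIndependent_iff] at h1
        push Not at h1
        obtain ⟨p, hp, hp0⟩ := h1
        set q := MvPolynomial.optionEquivLeft (Polynomial ℚ) I p with hq
        have hq0 : q ≠ 0 := by
          rw [hq]
          exact fun h => hp0 ((map_eq_zero_iff _ (MvPolynomial.optionEquivLeft (Polynomial ℚ) I).injective).1 h)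
        have hinj : Function.Injective (MvPolynomial.rename (R := Polynomial ℚ) (some : I → Option I) :
            MvPolynomial I (Polynomial ℚ) →ₐ[Polynomial ℚ] MvPolynomial (Option I) (Polynomial ℚ)).toRingHom :=
          MvPolynomial.rename_injective _ (Option.some_injective _)
        refine ⟨q.map (MvPolynomial.rename (R := Polynomial ℚ) (some : I → Option I)).toRingHom,
          (Polynomial.map_ne_zero_iff hinj).2 hq0, fun x y hy => ?_⟩
        rw [Polynomial.eval₂_map]
        set z : Option I → ℂ := fun o => o.elim (y (some s)) fun i => y (some i.1) with hz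
        have h2 : (spc (Option.map Subtype.val) x y).comp
            (MvPolynomial.rename (R := Polynomial ℚ) (some : I → Option I)).toRingHom =
            MvPolynomial.eval₂Hom (Polynomial.aeval x : Polynomial ℚ →ₐ[ℚ] ℂ).toRingHom fun i => z (some i) := by
          refine MvPolynomial.ringHom_ext (fun c => ?_) fun i => ?_
          · simp [spc]
          · simp [spc, hz]
        rw [h2]
        have h3 : y (some s) = z none := rfl
        rw [h3, hq, eval₂_option]
        have h4 := hy (MvPolynomial.rename (fun o : Option I => o.elim s Subtype.val) p) (by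
          rw [MvPolynomial.aeval_rename]
          have h5 : (h ∘ fun o : Option I => o.elim s Subtype.val) = fun o : Option I => o.elim (h s) fun i => h i := by
            funext o
            rcases o with _ | i <;> rfl
          rw [h5]
          exact hp)
        rw [MvPolynomial.eval₂_rename] at h4
        have h6 : ((fun i => y (some i)) ∘ fun o : Option I => o.elim s Subtype.val) = z := by
          funext o
          rcases o with _ | i <;> rfl
        rw [h6] at h4
        exact h4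
  choose R h1 h2 using key
  exact ⟨R, h1, fun x y hy s => h2 s x y hy⟩

/-- the polynomials over `ℚ` are countable -/
instance : Countable (Polynomial ℚ) := by
  rw [← Cardinal.mk_le_aleph0_iff]
  refine Polynomial.cardinalMk_le_max.trans (max_le ?_ le_rfl)
  exact Cardinal.mk_le_aleph0

/-- a sequence of nonzero polynomials which is eventually divisible by every nonzero polynomial -/
theorem exists_cseq : ∃ c : ℕ → Polynomial ℚ, (∀ n, c n ≠ 0) ∧ ∀ q : Polynomial ℚ, q ≠ 0 →
    ∃ N, ∀ n, N ≤ n → q ∣ c n := by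
  classical
  obtain ⟨f, hf⟩ := exists_surjective_nat (Polynomial ℚ)
  refine ⟨fun n => ∏ i ∈ (Finset.range (n + 1)).filter (fun i => f i ≠ 0), f i, fun n => ?_, fun q hq => ?_⟩
  · exact Finset.prod_ne_zero_iff.2 fun i hi => (Finset.mem_filter.1 hi).2
  · obtain ⟨N, rfl⟩ := hf q
    refine ⟨N, fun n hn => ?_⟩
    exact Finset.dvd_prod_of_mem f (Finset.mem_filter.2 ⟨Finset.mem_range.2 (by omega), hq⟩)

/-- an element of the closure gives a polynomial relation over the ultrapower of `ℚ` -/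
theorem rel_of_cl {D : ℕ} {κ : Type} (ω : Fin D → U ℂ) (z : κ → U ℂ) (a : κ)
    (h : z a ∈ MM.closure (Set.range ω ∪ z '' {a}ᶜ)) :
    ∃ F : MvPolynomial (Fin D ⊕ κ) (U ℚ), MvPolynomial.aeval (Sum.elim ω z) F = 0 ∧
      (MvPolynomial.aeval (Sum.elim (fun j => MvPolynomial.C (ω j)) MvPolynomial.X) F :
        MvPolynomial κ (U ℂ)) ≠ 0 := by
  classical
  set A0 := Algebra.adjoin (U ℚ) (Set.range ω) with hA0
  have h1 : ¬ AlgebraicIndependent A0 z := by
    intro hind
    have h2 : Transcendental (Algebra.adjoin A0 (z '' {a}ᶜ)) (z a) := hind.transcendental_adjoin (by simp)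
    apply h2
    have h3 := mem_cl.1 h
    rw [Algebra.adjoin_union_eq_adjoin_adjoin] at h3
    exact h3
  rw [algebraicIndependent_iff] at h1
  push Not at h1
  obtain ⟨p, hp, hp0⟩ := h1
  set P1 : MvPolynomial κ (U ℂ) := MvPolynomial.map (algebraMap A0 (U ℂ)) p with hP1
  have hinj : Function.Injective (algebraMap A0 (U ℂ)) := Subtype.val_injective
  have hP10 : P1 ≠ 0 := fun h0 => hp0 (MvPolynomial.map_injective _ hinj (h0.trans (map_zero _).symm))
  have hP1z : MvPolynomial.eval z P1 = 0 := by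
    rw [hP1, MvPolynomial.eval_map]
    exact hp
  let fr : MvPolynomial (Fin D) (U ℚ) →+* U ℂ := (MvPolynomial.aeval ω : MvPolynomial (Fin D) (U ℚ) →ₐ[U ℚ] U ℂ).toRingHom
  obtain ⟨P', hP'⟩ := lift_coeffs (MvPolynomial (Fin D) (U ℚ)) fr P1 (by
    intro m
    rw [hP1, MvPolynomial.coeff_map]
    have h2 : ((MvPolynomial.coeff m p : A0) : U ℂ) ∈ (MvPolynomial.aeval (R := U ℚ) ω).range := by
      rw [← Algebra.adjoin_range_eq_range_aeval]
      exact (MvPolynomial.coeff m p).2
    obtain ⟨c, hc⟩ := h2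
    exact ⟨c, hc⟩)
  let Ψ : MvPolynomial κ (MvPolynomial (Fin D) (U ℚ)) →+* MvPolynomial (Fin D ⊕ κ) (U ℚ) :=
    MvPolynomial.eval₂Hom (MvPolynomial.rename (R := U ℚ) (Sum.inl : Fin D → Fin D ⊕ κ)).toRingHom
      fun b => MvPolynomial.X (Sum.inr b)
  refine ⟨Ψ P', ?_, ?_⟩
  · have h2 : (MvPolynomial.aeval (R := U ℚ) (Sum.elim ω z)).toRingHom.comp Ψ =
        (MvPolynomial.eval z).comp (MvPolynomial.map fr) := by
      refine MvPolynomial.ringHom_ext (fun c => ?_) fun b => ?_
      · simp only [RingHom.comp_apply, MvPolynomial.map_C, MvPolynomial.eval_C]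
        show MvPolynomial.aeval (Sum.elim ω z) (Ψ (MvPolynomial.C c)) = MvPolynomial.aeval ω c
        have h3 : Ψ (MvPolynomial.C c) = MvPolynomial.rename (Sum.inl : Fin D → Fin D ⊕ κ) c :=
          MvPolynomial.eval₂Hom_C _ _ _
        rw [h3, MvPolynomial.aeval_rename]
        rfl
      · simp only [RingHom.comp_apply, MvPolynomial.map_X, MvPolynomial.eval_X]
        show MvPolynomial.aeval (Sum.elim ω z) (Ψ (MvPolynomial.X b)) = z b
        have h3 : Ψ (MvPolynomial.X b) = MvPolynomial.X (Sum.inr b) := MvPolynomial.eval₂Hom_X' _ _ _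
        rw [h3, MvPolynomial.aeval_X]
        rfl
    have h3 := RingHom.congr_fun h2 P'
    rw [RingHom.comp_apply, RingHom.comp_apply, hP', hP1z] at h3
    exact h3
  · have h2 : (MvPolynomial.aeval (R := U ℚ) (Sum.elim (fun j => MvPolynomial.C (ω j)) MvPolynomial.X) :
        MvPolynomial (Fin D ⊕ κ) (U ℚ) →ₐ[U ℚ] MvPolynomial κ (U ℂ)).toRingHom.comp Ψ =
        MvPolynomial.map fr := by
      refine MvPolynomial.ringHom_ext (fun c => ?_) fun b => ?_
      · simp only [RingHom.comp_apply, MvPolynomial.map_C]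
        show MvPolynomial.aeval (Sum.elim (fun j => MvPolynomial.C (ω j)) MvPolynomial.X) (Ψ (MvPolynomial.C c)) =
          MvPolynomial.C (MvPolynomial.aeval ω c)
        have h3 : Ψ (MvPolynomial.C c) = MvPolynomial.rename (Sum.inl : Fin D → Fin D ⊕ κ) c :=
          MvPolynomial.eval₂Hom_C _ _ _
        rw [h3, MvPolynomial.aeval_rename]
        have h4 : (MvPolynomial.C (MvPolynomial.aeval ω c) : MvPolynomial κ (U ℂ)) =
            ((IsScalarTower.toAlgHom (U ℚ) (U ℂ) (MvPolynomial κ (U ℂ))).comp (MvPolynomial.aeval ω)) c := rfl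
        rw [h4]
        refine DFunLike.congr_fun ?_ c
        refine MvPolynomial.algHom_ext fun j => ?_
        simp
      · simp only [RingHom.comp_apply, MvPolynomial.map_X]
        show MvPolynomial.aeval (Sum.elim (fun j => MvPolynomial.C (ω j)) MvPolynomial.X) (Ψ (MvPolynomial.X b)) =
          MvPolynomial.X b
        have h3 : Ψ (MvPolynomial.X b) = MvPolynomial.X (Sum.inr b) := MvPolynomial.eval₂Hom_X' _ _ _
        rw [h3, MvPolynomial.aeval_X]
        rfl
    have h3 := RingHom.congr_fun h2 P'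
    rw [RingHom.comp_apply, hP'] at h3
    intro h0
    exact hP10 (h3.symm.trans h0)

/-- a polynomial relation over the ultrapower gives relations of bounded degree -/
theorem rel_seq {D : ℕ} {κ : Type} (w : ℕ → Fin D → ℂ) (z : ℕ → κ → ℂ)
    (F : MvPolynomial (Fin D ⊕ κ) (U ℚ))
    (h1 : MvPolynomial.aeval (Sum.elim (fun j => mk ℂ fun n => w n j) fun b => mk ℂ fun n => z n b) F = 0)
    (h2 : (MvPolynomial.aeval (Sum.elim (fun j => MvPolynomial.C (mk ℂ fun n => w n j)) MvPolynomial.X) F :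
        MvPolynomial κ (U ℂ)) ≠ 0) :
    ∃ δ : ℕ, ∀ᶠ n in (hyperfilter ℕ : Filter ℕ), ∃ Q : MvPolynomial (Fin D ⊕ κ) ℚ, Q.totalDegree ≤ δ ∧
      MvPolynomial.aeval (Sum.elim (w n) (z n)) Q = 0 ∧
      (MvPolynomial.aeval (Sum.elim (fun j => MvPolynomial.C (w n j)) MvPolynomial.X) Q :
        MvPolynomial κ ℂ) ≠ 0 := by
  classical
  obtain ⟨Qs, rfl⟩ := rep F
  -- the polynomial with the sequences as coefficients
  let ι : (ℕ → ℚ) →+* (ℕ → ℂ) := RingHom.pi fun n => (algebraMap ℚ ℂ).comp (Pi.evalRingHom (fun _ => ℚ) n)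
  let Φ : MvPolynomial (Fin D ⊕ κ) (ℕ → ℚ) →+* MvPolynomial κ (ℕ → ℂ) :=
    MvPolynomial.eval₂Hom (MvPolynomial.C.comp ι) (Sum.elim (fun j => MvPolynomial.C fun n => w n j) MvPolynomial.X)
  have e1 : MvPolynomial.map (mk ℂ) (Φ Qs) =
      MvPolynomial.aeval (Sum.elim (fun j => MvPolynomial.C (mk ℂ fun n => w n j)) MvPolynomial.X)
        (MvPolynomial.map (mk ℚ) Qs) := by
    have h3 : (MvPolynomial.map (mk ℂ)).comp Φ =
        (MvPolynomial.aeval (R := U ℚ) (Sum.elim (fun j => MvPolynomial.C (mk ℂ fun n => w n j)) MvPolynomial.X) :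
          MvPolynomial (Fin D ⊕ κ) (U ℚ) →ₐ[U ℚ] MvPolynomial κ (U ℂ)).toRingHom.comp (MvPolynomial.map (mk ℚ)) := by
      refine MvPolynomial.ringHom_ext (fun c => ?_) fun b => ?_
      · simp only [RingHom.comp_apply, MvPolynomial.map_C]
        have h4 : Φ (MvPolynomial.C c) = MvPolynomial.C (ι c) := MvPolynomial.eval₂Hom_C _ _ _
        rw [h4, MvPolynomial.map_C]
        show _ = MvPolynomial.aeval (R := U ℚ)
          (Sum.elim (fun j => MvPolynomial.C (mk ℂ fun n => w n j)) MvPolynomial.X) (MvPolynomial.C (mk ℚ c))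
        rw [MvPolynomial.aeval_C]
        rfl
      · rw [RingHom.comp_apply, RingHom.comp_apply, MvPolynomial.map_X]
        have h4 : Φ (MvPolynomial.X b) = Sum.elim (fun j => MvPolynomial.C fun n => w n j) MvPolynomial.X b :=
          MvPolynomial.eval₂Hom_X' _ _ _
        rw [h4]
        show _ = MvPolynomial.aeval (R := U ℚ)
          (Sum.elim (fun j => MvPolynomial.C (mk ℂ fun n => w n j)) MvPolynomial.X) (MvPolynomial.X b)
        rw [MvPolynomial.aeval_X]
        rcases b with j | b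
        · rw [Sum.elim_inl, Sum.elim_inl, MvPolynomial.map_C]
        · rw [Sum.elim_inr, Sum.elim_inr, MvPolynomial.map_X]
    exact RingHom.congr_fun h3 Qs
  have e2 : ∀ n, MvPolynomial.map (Pi.evalRingHom (fun _ => ℂ) n) (Φ Qs) =
      MvPolynomial.aeval (Sum.elim (fun j => MvPolynomial.C (w n j)) MvPolynomial.X)
        (MvPolynomial.map (Pi.evalRingHom (fun _ => ℚ) n) Qs) := by
    intro n
    have h3 : (MvPolynomial.map (Pi.evalRingHom (fun _ => ℂ) n)).comp Φ =
        (MvPolynomial.aeval (R := ℚ) (Sum.elim (fun j => MvPolynomial.C (w n j)) MvPolynomial.X) :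
          MvPolynomial (Fin D ⊕ κ) ℚ →ₐ[ℚ] MvPolynomial κ ℂ).toRingHom.comp
          (MvPolynomial.map (Pi.evalRingHom (fun _ => ℚ) n)) := by
      refine MvPolynomial.ringHom_ext (fun c => ?_) fun b => ?_
      · simp only [RingHom.comp_apply, MvPolynomial.map_C]
        have h4 : Φ (MvPolynomial.C c) = MvPolynomial.C (ι c) := MvPolynomial.eval₂Hom_C _ _ _
        rw [h4, MvPolynomial.map_C]
        show _ = MvPolynomial.aeval (R := ℚ)
          (Sum.elim (fun j => MvPolynomial.C (w n j)) MvPolynomial.X) (MvPolynomial.C (c n))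
        rw [MvPolynomial.aeval_C]
        rfl
      · rw [RingHom.comp_apply, RingHom.comp_apply, MvPolynomial.map_X]
        have h4 : Φ (MvPolynomial.X b) = Sum.elim (fun j => MvPolynomial.C fun n => w n j) MvPolynomial.X b :=
          MvPolynomial.eval₂Hom_X' _ _ _
        rw [h4]
        show _ = MvPolynomial.aeval (R := ℚ)
          (Sum.elim (fun j => MvPolynomial.C (w n j)) MvPolynomial.X) (MvPolynomial.X b)
        rw [MvPolynomial.aeval_X]
        rcases b with j | b
        · rw [Sum.elim_inl, Sum.elim_inl, MvPolynomial.map_C]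
          rfl
        · rw [Sum.elim_inr, Sum.elim_inr, MvPolynomial.map_X]
    exact RingHom.congr_fun h3 Qs
  rw [← e1] at h2
  obtain ⟨m, hm⟩ := MvPolynomial.ne_zero_iff.1 h2
  rw [MvPolynomial.coeff_map, mk_ne_zero] at hm
  have h3 : (Sum.elim (fun j => mk ℂ fun n => w n j) fun b => mk ℂ fun n => z n b : Fin D ⊕ κ → U ℂ) =
      fun i => mk ℂ (fun n => Sum.elim (w n) (z n) i) := by
    funext i
    rcases i with j | b <;> rfl
  rw [h3, aeval_mk, mk_eq_zero] at h1
  refine ⟨Qs.totalDegree, ?_⟩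
  filter_upwards [h1, hm] with n h4 h5
  refine ⟨MvPolynomial.map (Pi.evalRingHom (fun _ => ℚ) n) Qs, tdm _ _, h4, ?_⟩
  rw [← e2]
  intro h0
  have h6 := congrArg (MvPolynomial.coeff m) h0
  rw [MvPolynomial.coeff_map, MvPolynomial.coeff_zero] at h6
  exact h5 h6

theorem core (hdep : C_dep) : C_br := by
  classical
  intro r h I hI k m d δ D
  obtain ⟨R, hR1, hR2⟩ := exists_Rc hI
  obtain ⟨c, hc1, hc2⟩ := exists_cseq
  by_contra hcon
  push Not at hcon
  choose x y₀ Y K w P h1 h2 h3 h4 h5 h6 h7 h8 h9 h10 h11 using fun n => hcon n (c n) (hc1 n)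
  choose K₁ k1 k2 k3 using h1
  choose y hy1 hy2 using h10
  obtain ⟨a, ha⟩ := hdep (Option (Fin r)) (Option I) (Fin D) (Option.map Subtype.val) R hR1 k x
    (fun j => alg_of_degree (D := m) (fun n => K₁ n j) (fun n => k1 n j) (fun n => k2 n j) _ fun n => k3 n j)
    (by
      intro q hq j
      obtain ⟨N, hN⟩ := hc2 q hq
      filter_upwards [ev_ge N] with n hn h0
      obtain ⟨u, hu⟩ := hN n hn
      apply h2 n j
      rw [hu, map_mul, h0, zero_mul])
    w Y h3 y₀ h4 (fun n y hy j s => hR2 (x n j) (fun s => y (j, s)) (h5 n y hy j) s)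
    d δ K h6 h7 P h8 h9 y hy1 hy2
  obtain ⟨F, hF1, hF2⟩ := rel_of_cl (fun j : Fin D => mk ℂ fun n => w n j)
    (fun b : Fin k × Option I => mk ℂ fun n => y₀ n (b.1, Option.map Subtype.val b.2)) a ha
  obtain ⟨δ₀, hδ⟩ := rel_seq w (fun n (b : Fin k × Option I) => y₀ n (b.1, Option.map Subtype.val b.2)) F hF1 hF2
  obtain ⟨n, ⟨Q, q1, q2, q3⟩, hn⟩ := (hδ.and (ev_ge δ₀)).exists
  exact q3 (h11 n Q (q1.trans hn) q2)

end Pool.Agent.Y977.AF
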