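import Pool.Agent.Y916.Af.Stm
import Pool.Agent.Y977.AF.BrCore

/-!
# (DEP) implies (BR): from relations between all coordinates to relations between the free coordinates
-/

set_option autoImplicit false

namespace Pool.Agent.Y977.AF

theorem br_of (hdep : Pool.Agent.Y916.Af.S_dep) : Pool.Agent.Y916.Af.S_br :=
  fun r h I hI => core hdep r h I hI.2

end Pool.Agent.Y977.AF
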